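import Pool.Agent.Exo.GenMain

/-!
# `A(n; L)` for graphs with `ex(n; L) = t_r(n) + O(1)`, with connected examples of every
chromatic number
-/

open Finset Fintype Filter SimpleGraph Pool.Agent.Helper49.Copies Pool.Agent.Exo

namespace Pool.Agent.Results.MP_ebbdc0_co.Dichotomy

/-- (1) Let `r ≥ 2`, let `L` be a graph which is not `r`-colourable, and suppose that
`ex(n; L) - t_r(n)` is bounded above, `t_r(n)` the number of edges of the Turan graph. If `Gap L r`
fails then `A(n; L)` tends to infinity, and if `Gap L r` holds then `A(n; L)` is bounded.
`Gap L r` is a statement on finite configurations: a configuration is a finite graph `H` with a map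
of its vertices to `r` classes, its excess is the number of its edges inside classes minus the
number of its non-adjacent pairs in different classes (`excess` is twice this number), its host is
obtained by adding infinitely many vertices to every class, joined to all vertices of the other
classes; `Gap L r` says that some configuration whose host has no copy of `L` using a new vertex has
a larger excess than every configuration whose host contains no copy of `L`.
(2) The second case occurs for connected graphs: for every `r ≥ 2` there is a connected graph `L` with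
`6 r + 12` vertices and chromatic number `r + 1` such that `ex(n; L) - t_r(n)` is bounded above and
`Gap L r` holds, so that `A(n; L)` is bounded. -/
theorem result :
    (∀ {W : Type} [Fintype W] (L : SimpleGraph W) (r : ℕ), 2 ≤ r → ¬ L.Colorable r →
      (∃ K : ℕ, ∀ n, extremalNumber n L ≤ #(turanGraph n r).edgeFinset + K) →
      (¬ Gap L r → Tendsto (fun n => minCopies n L) atTop atTop) ∧
        (Gap L r → ∃ C, ∀ n, minCopies n L ≤ C)) ∧
    (∀ r : ℕ, 2 ≤ r → ∃ (W : Type) (_ : Fintype W) (L : SimpleGraph W), card W = 6 * r + 12 ∧
      L.Connected ∧ L.Colorable (r + 1) ∧ ¬ L.Colorable r ∧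
      (∃ K : ℕ, ∀ n, extremalNumber n L ≤ #(turanGraph n r).edgeFinset + K) ∧ Gap L r ∧
      ∃ C, ∀ n, minCopies n L ≤ C) := by
  refine ⟨fun L r hr hnc ⟨K, hK⟩ => criterion L r hr hnc K hK, fun r hr => ?_⟩
  obtain ⟨W, _, L, h1, h2, h3, h4, ⟨K, hK⟩, h6⟩ := Gen.exists_gap r hr
  exact ⟨W, inferInstance, L, h1, h2, h3, h4, ⟨K, hK⟩, h6, (criterion L r hr h4 K hK).2 h6⟩

end Pool.Agent.Results.MP_ebbdc0_co.Dichotomy
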