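import Pool.Agent.C4E.Combi
import Pool.Agent.C4E.Ari
import Pool.Agent.C4E.GrMa

/-!
# `A(n; C₄)` does not tend to infinity
-/

namespace Pool.Agent.Results.MP_ebbdc0_co.FourCycles

open SimpleGraph Filter Pool.Agent.Helper49.Copies Pool.Agent.C4E

theorem bound (k : ℕ) (hk : Odd k) (h : 333 ≤ k) :
    minCopies (4 ^ k + 2 ^ k + 2) (cycleGraph 4) ≤ 8 * 10 ^ 30 := by
  by_contra hA
  push Not at hA
  have hq : 10 ^ 100 ≤ 2 ^ k := by
    have h1 : (2 : ℕ) ^ 333 = 2 ^ 200 * 2 ^ 133 := by rw [← pow_add]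
    have h2 : (10 : ℕ) ^ 100 ≤ 2 ^ 200 * 2 ^ 133 := by norm_num
    exact (h2.trans h1.ge).trans (Nat.pow_le_pow_right (by norm_num) h)
  obtain ⟨N, s⟩ := graph_part k hq hA
  rcases combi s with ⟨N1, h1⟩ | ⟨N2, h2, h3⟩
  · exact ar1 k (by omega) N1 h1
  · have h4 := ar2 k (by omega) hk N2 h2
    omega

/-- (1) For every odd `k ≥ 333` and `q = 2 ^ k`, some graph with `n = q² + q + 2` vertices and
exactly `ex(n; C₄) + 1` edges has at most `8 * 10 ^ 30` copies of `C₄`.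
(2) `A(n; C₄)` does not tend to infinity. -/
theorem result :
    (∀ k : ℕ, Odd k → 333 ≤ k → minCopies (4 ^ k + 2 ^ k + 2) (cycleGraph 4) ≤ 8 * 10 ^ 30) ∧
      ¬ Tendsto (fun n => minCopies n (cycleGraph 4)) atTop atTop := by
  refine ⟨bound, fun hT => ?_⟩
  obtain ⟨n0, hn0⟩ := eventually_atTop.1 (hT.eventually (eventually_ge_atTop (8 * 10 ^ 30 + 1)))
  have h1 := bound (2 * n0 + 333) ⟨n0 + 166, by ring⟩ (by omega)
  have h2 : n0 ≤ 4 ^ (2 * n0 + 333) + 2 ^ (2 * n0 + 333) + 2 := by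
    have h3 : 2 * n0 + 333 < 2 ^ (2 * n0 + 333) := Nat.lt_two_pow_self
    have h4 : 2 ^ (2 * n0 + 333) ≤ 4 ^ (2 * n0 + 333) + 2 ^ (2 * n0 + 333) := Nat.le_add_left _ _
    omega
  have h3 := hn0 _ h2
  omega

end Pool.Agent.Results.MP_ebbdc0_co.FourCycles
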