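import Pool.Agent.Helper20.Tur.Frac
import Pool.Agent.Helper20.Tur.Forest

/-!
# `A(n; L) → ∞` for non-bipartite `L`: moving a part of a copy, and forests inside the classes
-/

open Finset Fintype Filter SimpleGraph Pool.Agent.Helper49.Copies

namespace Pool.Agent.Results.MP_ebbdc0_co.NonBipartiteCriteria

/-- Let `L` have chromatic number `r + 1 ≥ 3` (connected or not). Then `A(n; L) → ∞` in each of
the following two cases.

(a) For all probability distributions `μ 0, …, μ (r-1)` on the sets of vertices of `L` such that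
`∑ i, μ i {M | v ∈ M} ≤ 1` for every vertex `v`, there are a nonempty set `T` of vertices, a map
`σ` which is injective and preserves edges outside of `T`, and a map `Y : T → {0, …, r-1}` which is
proper on the edges inside `T`, such that every `v ∈ T` has a set `M` in the support of `μ (Y v)`
which contains no `σ w` for the neighbours `w` of `v` outside of `T`.

(b) Deleting a vertex `u` leaves an `r`-colourable graph; let `c₀` be a map from the vertices to
`r` classes which is proper on `L - u`, and let `s` be the number of neighbours of `u` in its own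
class. Every map `c` from the vertices of `L` to `r` classes for which all classes induce acyclic
graphs has a vertex with at least `s` neighbours in its own class. -/
theorem result {W : Type} [Fintype W] [DecidableEq W] (L : SimpleGraph W) [DecidableRel L.Adj]
    (r : ℕ) (hr : 2 ≤ r) (hcol : L.Colorable (r + 1)) (hnc : ¬ L.Colorable r)
    (h : (∀ μ : Fin r → Finset W → ℝ, (∀ i M, 0 ≤ μ i M) → (∀ i, ∑ M, μ i M = 1) →
        (∀ v, ∑ i, ∑ M with v ∈ M, μ i M ≤ 1) →
        ∃ (T : Finset W) (σ : W → W) (Y : W → Fin r), T.Nonempty ∧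
          Set.InjOn σ ((T : Set W)ᶜ) ∧
          (∀ v w, L.Adj v w → v ∉ T → w ∉ T → L.Adj (σ v) (σ w)) ∧
          (∀ v w, L.Adj v w → v ∈ T → w ∈ T → Y v ≠ Y w) ∧
          ∀ v ∈ T, ∃ M, 0 < μ (Y v) M ∧ ∀ w, L.Adj v w → w ∉ T → σ w ∉ M) ∨
      (∃ (u : W) (c₀ : W → Fin r), (∀ a b, L.Adj a b → a ≠ u → b ≠ u → c₀ a ≠ c₀ b) ∧
        ∀ c : W → Fin r, (∀ i, (L.induce {w | c w = i}).IsAcyclic) →
          ∃ w, #{v | L.Adj u v ∧ c₀ v = c₀ u} ≤ #{v | L.Adj w v ∧ c v = c w})) :
    Tendsto (fun n => minCopies n L) atTop atTop := by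
  rcases h with h | ⟨u, c₀, hc₀, h⟩
  · refine Pool.Agent.Helper20.Tur.tendsto_frac L r hr hcol hnc ?_
    rintro μ ⟨h1, h2, h3⟩
    obtain ⟨T, σ, Y, hT, hσ, hσL, hY, hM⟩ := h μ h1 h2 (by simpa using h3)
    refine ⟨T, σ, Y, ⟨hT, hσ, hσL, hY⟩, ?_⟩
    intro v hv
    obtain ⟨M, hM0, hM1⟩ := hM v hv
    exact ⟨M, (Pool.Agent.Helper20.Tur.mem_okSets L T σ v M).2 hM1, hM0⟩
  · exact Pool.Agent.Helper20.Tur.tendsto_forest L r hr hnc u c₀ hc₀ h

end Pool.Agent.Results.MP_ebbdc0_co.NonBipartiteCriteria
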