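import Pool.Agent.Helper37.XL.Final

/-!
# A connected 3-chromatic graph `L` for which `A(n; L)` oscillates
-/

namespace Pool.Agent.Results.MP_ebbdc0_co.Oscillation

open SimpleGraph Filter Pool.Agent.Helper49.Copies

/-- There is a connected graph `L` on ten vertices with chromatic number three such that, for all
large `n`, `ex(n; L)` is `⌊n²/4⌋ + n - 1` or `⌊n²/4⌋ + n` according to whether `n` is `2, 3, 4` or
`0, 1, 5` modulo six; in the first case `A(n; L)` is bounded, in the second case it tends to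
infinity. -/
theorem result : ∃ L : SimpleGraph (Fin 10), L.Connected ∧ L.chromaticNumber = 3 ∧
    (∀ᶠ n : ℕ in atTop, extremalNumber n L +
      (if n % 6 = 2 ∨ n % 6 = 3 ∨ n % 6 = 4 then 1 else 0) = n ^ 2 / 4 + n) ∧
    (∃ C : ℕ, ∀ n : ℕ, (n % 6 = 2 ∨ n % 6 = 3 ∨ n % 6 = 4) → minCopies n L ≤ C) ∧
    (∀ C : ℕ, ∀ᶠ n : ℕ in atTop, (n % 6 = 0 ∨ n % 6 = 1 ∨ n % 6 = 5) → C ≤ minCopies n L) := by
  refine ⟨Pool.Agent.Helper37.XL.L, Pool.Agent.Helper37.XL.L_connected,
    Pool.Agent.Helper37.XL.L_chromatic, Pool.Agent.Helper37.XL.ex_eq, ?_,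
    Pool.Agent.Helper37.XL.unbounded⟩
  obtain ⟨N, hN⟩ := eventually_atTop.1 Pool.Agent.Helper37.XL.bounded
  refine ⟨max (14 ^ 10) ((Finset.range N).sup fun n => minCopies n Pool.Agent.Helper37.XL.L),
    fun n h6 => ?_⟩
  by_cases hn : N ≤ n
  · exact (hN n hn h6).trans (le_max_left _ _)
  · exact (Finset.le_sup (f := fun n => minCopies n Pool.Agent.Helper37.XL.L)
      (Finset.mem_range.2 (not_le.1 hn))).trans (le_max_right _ _)

end Pool.Agent.Results.MP_ebbdc0_co.Oscillation
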